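import Mathlib

set_option autoImplicit false

namespace Pool.Agent.Results.MP_be54a8_co.SidonNine

/-- Bose: a Sidon set of size p modulo p^2-1. -/
theorem bose (p : ℕ) (hp : p.Prime) :
    ∃ T : Finset ℕ, T.card = p ∧ (∀ t ∈ T, t < p ^ 2 - 1) ∧
      ∀ a ∈ T, ∀ b ∈ T, ∀ c ∈ T, ∀ d ∈ T, a + b ≡ c + d [MOD (p ^ 2 - 1)] →
        (a = c ∧ b = d) ∨ (a = d ∧ b = c) := by
  classical
  haveI : Fact p.Prime := ⟨hp⟩
  have hcard : Nat.card (GaloisField p 2) = p ^ 2 := GaloisField.card p 2 (by norm_num)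
  haveI : Finite (GaloisField p 2) := Nat.finite_of_card_ne_zero (by
    rw [hcard]; exact pow_ne_zero _ hp.ne_zero)
  set φ := algebraMap (ZMod p) (GaloisField p 2) with hφ
  have hφinj : Function.Injective φ := φ.injective
  obtain ⟨θ, hθ⟩ : ∃ θ : GaloisField p 2, ∀ a, φ a ≠ θ := by
    by_contra hcon
    push Not at hcon
    have h1 := Nat.card_le_card_of_surjective φ hcon
    rw [hcard, Nat.card_zmod] at h1
    have := hp.two_le
    nlinarith
  have hne : ∀ a : ZMod p, θ + φ a ≠ 0 := by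
    intro a h
    apply hθ (-a)
    rw [map_neg]
    exact (eq_neg_of_add_eq_zero_left h).symm
  obtain ⟨g, hg⟩ := IsCyclic.exists_generator (α := (GaloisField p 2)ˣ)
  have hord : orderOf g = p ^ 2 - 1 := by
    rw [orderOf_eq_card_of_forall_mem_zpowers hg, Nat.card_units, hcard]
  have hpos : 0 < orderOf g := orderOf_pos g
  have hex : ∀ a : ZMod p, ∃ k : ℕ, k < orderOf g ∧ ((g ^ k : (GaloisField p 2)ˣ) : GaloisField p 2) = θ + φ a := by
    intro a
    have h1 : Units.mk0 _ (hne a) ∈ Submonoid.powers g := mem_powers_iff_mem_zpowers.2 (hg _)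
    obtain ⟨k, hk⟩ := h1
    refine ⟨k % orderOf g, Nat.mod_lt _ hpos, ?_⟩
    rw [pow_mod_orderOf]
    have : g ^ k = Units.mk0 _ (hne a) := hk
    rw [this]
    rfl
  choose e he1 he2 using hex
  have hinj : Function.Injective e := by
    intro a b hab
    have h1 := he2 a
    rw [hab, he2 b] at h1
    exact (hφinj (add_left_cancel h1)).symm
  refine ⟨Finset.univ.image e, ?_, ?_, ?_⟩
  · rw [Finset.card_image_of_injective _ hinj, Finset.card_univ, ZMod.card]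
  · intro t ht
    obtain ⟨a, -, rfl⟩ := Finset.mem_image.1 ht
    rw [← hord]
    exact he1 a
  · intro a' ha b' hb c' hc d' hd hmod
    obtain ⟨a, -, rfl⟩ := Finset.mem_image.1 ha
    obtain ⟨b, -, rfl⟩ := Finset.mem_image.1 hb
    obtain ⟨c, -, rfl⟩ := Finset.mem_image.1 hc
    obtain ⟨d, -, rfl⟩ := Finset.mem_image.1 hd
    rw [← hord] at hmod
    have h1 : g ^ (e a + e b) = g ^ (e c + e d) := pow_eq_pow_iff_modEq.2 hmod
    have h2 : (θ + φ a) * (θ + φ b) = (θ + φ c) * (θ + φ d) := by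
      rw [← he2 a, ← he2 b, ← he2 c, ← he2 d, ← Units.val_mul, ← Units.val_mul, ← pow_add, ← pow_add, h1]
    have h3 : θ * φ ((a + b) - (c + d)) = φ (c * d - a * b) := by
      simp only [map_sub, map_add, map_mul]
      linear_combination h2
    have h4 : (a + b) - (c + d) = 0 := by
      by_contra hs
      apply hθ ((c * d - a * b) / ((a + b) - (c + d)))
      have hs' : φ ((a + b) - (c + d)) ≠ 0 := fun h => hs (hφinj (by rw [h, map_zero]))
      rw [map_div₀, ← h3]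
      field_simp
    have h5 : c * d - a * b = 0 := by
      rw [h4, map_zero, mul_zero] at h3
      exact (hφinj (by rw [← h3, map_zero]))
    have h6 : (a - c) * (a - d) = 0 := by
      linear_combination (-1 : ZMod p) * h5 * (-1) + a * h4
    rcases mul_eq_zero.1 h6 with h | h
    · left
      have hac : a = c := sub_eq_zero.1 h
      have hbd : b = d := by
        subst hac
        linear_combination h4
      rw [hac, hbd]
      exact ⟨rfl, rfl⟩
    · right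
      have hac : a = d := sub_eq_zero.1 h
      have hbd : b = c := by
        subst hac
        linear_combination h4
      rw [hac, hbd]
      exact ⟨rfl, rfl⟩

/-- the cell of `t`. -/
def InCell (P L : ℕ) (t : ℕ) (x : ZMod P) : Prop := 2 * t * L ≤ x.val ∧ x.val < 2 * t * L + L

instance (P L t : ℕ) (x : ZMod P) : Decidable (InCell P L t x) := by
  unfold InCell; infer_instance

/-- sums of elements of cells determine the sum of indices modulo `M`. -/
theorem cell_sum (M L P : ℕ) (hM : 0 < M) (hL : 0 < L) (hP : P = 2 * M * L + 1)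
    (t₁ t₂ t₃ t₄ : ℕ) (h₁ : t₁ < M) (h₂ : t₂ < M) (h₃ : t₃ < M) (h₄ : t₄ < M)
    (x₁ x₂ x₃ x₄ : ZMod P) (c₁ : InCell P L t₁ x₁) (c₂ : InCell P L t₂ x₂)
    (c₃ : InCell P L t₃ x₃) (c₄ : InCell P L t₄ x₄) (h : x₁ + x₂ = x₃ + x₄) :
    t₁ + t₂ ≡ t₃ + t₄ [MOD M] := by
  have hP0 : P ≠ 0 := by omega
  haveI : NeZero P := ⟨hP0⟩
  obtain ⟨a1, b1⟩ := c₁
  obtain ⟨a2, b2⟩ := c₂
  obtain ⟨a3, b3⟩ := c₃
  obtain ⟨a4, b4⟩ := c₄
  have l1 := ZMod.val_lt x₁
  have l2 := ZMod.val_lt x₂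
  have l3 := ZMod.val_lt x₃
  have l4 := ZMod.val_lt x₄
  have hmod : x₁.val + x₂.val ≡ x₃.val + x₄.val [MOD P] := by
    rw [← ZMod.natCast_eq_natCast_iff]
    push_cast
    rw [ZMod.natCast_zmod_val, ZMod.natCast_zmod_val, ZMod.natCast_zmod_val, ZMod.natCast_zmod_val]
    exact h
  obtain ⟨k, hk⟩ := Nat.modEq_iff_dvd.1 hmod
  obtain ⟨v1, hv1⟩ : ∃ v : ℤ, v = (x₁.val : ℤ) := ⟨_, rfl⟩
  obtain ⟨v2, hv2⟩ : ∃ v : ℤ, v = (x₂.val : ℤ) := ⟨_, rfl⟩
  obtain ⟨v3, hv3⟩ : ∃ v : ℤ, v = (x₃.val : ℤ) := ⟨_, rfl⟩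
  obtain ⟨v4, hv4⟩ : ∃ v : ℤ, v = (x₄.val : ℤ) := ⟨_, rfl⟩
  have hPz : (P : ℤ) = 2 * M * L + 1 := by exact_mod_cast hP
  have hLz : (0 : ℤ) < L := by exact_mod_cast hL
  have hMz : (0 : ℤ) < M := by exact_mod_cast hM
  have hPpos : (0 : ℤ) < P := by exact_mod_cast Nat.pos_of_ne_zero hP0
  zify at a1 b1 a2 b2 a3 b3 a4 b4 l1 l2 l3 l4
  rw [← hv1] at a1 b1 l1
  rw [← hv2] at a2 b2 l2
  rw [← hv3] at a3 b3 l3
  rw [← hv4] at a4 b4 l4
  push_cast at hk
  rw [← hv1, ← hv2, ← hv3, ← hv4] at hk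
  have n1 : (0 : ℤ) ≤ v1 := by rw [hv1]; positivity
  have n2 : (0 : ℤ) ≤ v2 := by rw [hv2]; positivity
  have n3 : (0 : ℤ) ≤ v3 := by rw [hv3]; positivity
  have n4 : (0 : ℤ) ≤ v4 := by rw [hv4]; positivity
  have k1 : k < 2 := by
    by_contra hc
    push Not at hc
    nlinarith
  have k2 : -2 < k := by
    by_contra hc
    push Not at hc
    nlinarith
  obtain ⟨X, hX⟩ : ∃ X : ℤ, X = (t₃ : ℤ) + t₄ - t₁ - t₂ - k * M := ⟨_, rfl⟩
  have hX2 : 2 * (L : ℤ) * X = k - ((v3 - 2 * t₃ * L) + (v4 - 2 * t₄ * L) - (v1 - 2 * t₁ * L) -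
      (v2 - 2 * t₂ * L)) := by
    rw [hX]
    have h1 : v3 + v4 - (v1 + v2) = (2 * M * L + 1) * k := by rw [hk, hPz]
    linear_combination h1
  have hX0 : X = 0 := by
    rcases lt_trichotomy X 0 with hc | hc | hc
    · have h1 : (L : ℤ) * X ≤ L * (-1) := mul_le_mul_of_nonneg_left (by omega) hLz.le
      linarith
    · exact hc
    · have h1 : (L : ℤ) * 1 ≤ L * X := mul_le_mul_of_nonneg_left (by omega) hLz.le
      linarith
  rw [Nat.modEq_iff_dvd]
  refine ⟨k, ?_⟩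
  push_cast
  rw [hX0] at hX
  linarith

theorem cell_card (M L P t : ℕ) [Fact P.Prime] (hP : P = 2 * M * L + 1) (ht : t < M) :
    ∑ w : ZMod P, (if InCell P L t w then (1:ℝ) else 0) = L := by
  rw [Finset.sum_boole]
  have hb : ∀ i, i < L → 2 * t * L + i < P := by
    intro i hi
    have h1 : (t + 1) * L ≤ M * L := Nat.mul_le_mul_right L ht
    rw [hP]
    nlinarith
  have hc : (Finset.univ.filter (fun w : ZMod P => InCell P L t w)).card =
      (Finset.range L).card := by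
    refine Finset.card_bij' (fun x _ => x.val - 2 * t * L)
      (fun i _ => ((2 * t * L + i : ℕ) : ZMod P)) ?_ ?_ ?_ ?_
    · intro x hx
      have h2 := (Finset.mem_filter.mp hx).2
      unfold InCell at h2
      rw [Finset.mem_range]
      omega
    · intro i hi
      have h3 := Finset.mem_range.mp hi
      refine Finset.mem_filter.mpr ⟨Finset.mem_univ _, ?_⟩
      unfold InCell
      rw [ZMod.val_natCast_of_lt (hb i h3)]
      omega
    · intro x hx
      have h2 := (Finset.mem_filter.mp hx).2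
      unfold InCell at h2
      have h4 : 2 * t * L + (x.val - 2 * t * L) = x.val := by omega
      simp only [h4]
      exact ZMod.natCast_zmod_val x
    · intro i hi
      have h3 := Finset.mem_range.mp hi
      rw [ZMod.val_natCast_of_lt (hb i h3)]
      omega
  rw [hc, Finset.card_range]

theorem pair_same (P : ℕ) [Fact P.Prime] (g : ZMod P → ℝ) (a : ZMod P) :
    ∑ p : ZMod P × ZMod P, g (p.1 * a + p.2) = P * ∑ w, g w := by
  rw [Fintype.sum_prod_type]
  have h1 : ∀ u : ZMod P, ∑ v : ZMod P, g (u * a + v) = ∑ w, g w := by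
    intro u
    exact Fintype.sum_equiv (Equiv.addLeft (u * a)) _ _ (fun v => rfl)
  simp only [h1]
  rw [Finset.sum_const, nsmul_eq_mul, Finset.card_univ, ZMod.card]

theorem pair_diff (P : ℕ) [Fact P.Prime] (g : ZMod P → ℝ) (a b : ZMod P) (hab : a ≠ b) :
    ∑ p : ZMod P × ZMod P, g (p.1 * a + p.2) * g (p.1 * b + p.2) = (∑ w, g w) ^ 2 := by
  have hne : a - b ≠ 0 := sub_ne_zero.mpr hab
  have h1 : ∑ p : ZMod P × ZMod P, g (p.1 * a + p.2) * g (p.1 * b + p.2) =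
      ∑ q : ZMod P × ZMod P, g q.1 * g q.2 := by
    refine Finset.sum_bij' (fun p _ => (p.1 * a + p.2, p.1 * b + p.2))
      (fun q _ => ((q.1 - q.2) / (a - b), q.1 - (q.1 - q.2) / (a - b) * a)) ?_ ?_ ?_ ?_ ?_
    · intro p _
      exact Finset.mem_univ _
    · intro p _
      exact Finset.mem_univ _
    · rintro ⟨u, v⟩ _
      have h2 : (u * a + v - (u * b + v)) / (a - b) = u := by
        rw [div_eq_iff hne]
        ring
      simp only [h2]
      refine Prod.ext rfl ?_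
      simp only
      ring
    · rintro ⟨x, y⟩ _
      have h3 : (x - y) / (a - b) * (a - b) = x - y := div_mul_cancel₀ _ hne
      refine Prod.ext ?_ ?_
      · simp only
        ring
      · simp only
        linear_combination -h3
    · intro p _
      rfl
  rw [h1, Fintype.sum_prod_type, sq, Finset.sum_mul_sum]

/-- averaging over all affine hashes. -/
theorem avg (M L P : ℕ) [Fact P.Prime] (hM : 0 < M) (hL : 0 < L) (hP : P = 2 * M * L + 1)
    (A : Finset ℤ) (hA : ∀ a ∈ A, ∀ b ∈ A, a ≠ b → ¬ ((P : ℤ) ∣ (a - b)))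
    (T : Finset ℕ) (hT : ∀ t ∈ T, t < M) (α β : ℝ)
    (hαβ : ∀ x : ℕ, 1 ≤ x → α * x - β * (x * (x - 1)) ≤ 1) :
    ∃ u v : ZMod P,
      (T.card : ℝ) * (α * A.card * L * P - β * (A.card * (A.card - 1)) * L ^ 2) ≤
        ((T.filter (fun t => ∃ a ∈ A, InCell P L t (u * (a : ZMod P) + v))).card : ℝ) * P ^ 2 := by
  obtain ⟨g, hg⟩ : ∃ g : ℕ → ZMod P → ℝ, g = fun t w => if InCell P L t w then (1:ℝ) else 0 :=
    ⟨_, rfl⟩
  have hgs : ∀ t w, g t w * g t w = g t w := by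
    intro t w
    rw [hg]
    simp only
    split_ifs <;> norm_num
  have hgc : ∀ t ∈ T, ∑ w, g t w = L := by
    intro t ht
    rw [hg]
    exact cell_card M L P t hP (hT t ht)
  have hAne : ∀ a ∈ A, ∀ b ∈ A, a ≠ b → (a : ZMod P) ≠ (b : ZMod P) := by
    intro a ha b hb hab h
    apply hA a ha b hb hab
    rw [← sub_eq_zero, ← Int.cast_sub] at h
    exact (ZMod.intCast_zmod_eq_zero_iff_dvd _ _).mp h
  -- first moment
  have hS1 : ∀ t ∈ T, ∑ p : ZMod P × ZMod P, ∑ a ∈ A, g t (p.1 * (a : ZMod P) + p.2) =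
      A.card * (P * L) := by
    intro t ht
    rw [Finset.sum_comm]
    rw [Finset.sum_congr rfl (fun (a : ℤ) _ => pair_same P (g t) (a : ZMod P)), hgc t ht,
      Finset.sum_const, nsmul_eq_mul]
  -- second moment
  have hS2 : ∀ t ∈ T, ∑ p : ZMod P × ZMod P, (∑ a ∈ A, g t (p.1 * (a : ZMod P) + p.2)) ^ 2 =
      A.card * (P * L) + A.card * (A.card - 1) * L ^ 2 := by
    intro t ht
    have h1 : ∀ p : ZMod P × ZMod P, (∑ a ∈ A, g t (p.1 * (a : ZMod P) + p.2)) ^ 2 =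
        ∑ a ∈ A, ∑ b ∈ A, g t (p.1 * (a : ZMod P) + p.2) * g t (p.1 * (b : ZMod P) + p.2) := by
      intro p
      rw [sq, Finset.sum_mul_sum]
    rw [Finset.sum_congr rfl (fun p _ => h1 p), Finset.sum_comm]
    have h2 : ∀ a ∈ A, ∑ p : ZMod P × ZMod P, ∑ b ∈ A,
        g t (p.1 * (a : ZMod P) + p.2) * g t (p.1 * (b : ZMod P) + p.2) =
        P * L + (A.card - 1) * L ^ 2 := by
      intro a ha
      rw [Finset.sum_comm, ← Finset.add_sum_erase A _ ha]
      have h3 : ∑ p : ZMod P × ZMod P,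
          g t (p.1 * (a : ZMod P) + p.2) * g t (p.1 * (a : ZMod P) + p.2) = P * L := by
        rw [Finset.sum_congr rfl (fun p _ => hgs t _), pair_same, hgc t ht]
      rw [h3]
      congr 1
      rw [Finset.sum_congr rfl (fun b hb => by
        rw [pair_diff P (g t) (a : ZMod P) (b : ZMod P)
          (hAne a ha b (Finset.mem_of_mem_erase hb) (Finset.ne_of_mem_erase hb).symm),
          hgc t ht])]
      rw [Finset.sum_const, nsmul_eq_mul, Finset.card_erase_of_mem ha,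
        Nat.cast_sub (Finset.card_pos.mpr ⟨a, ha⟩), Nat.cast_one]
    rw [Finset.sum_congr rfl h2, Finset.sum_const, nsmul_eq_mul]
    ring
  -- pointwise bound
  have hpt : ∀ t, ∀ p : ZMod P × ZMod P,
      α * (∑ a ∈ A, g t (p.1 * (a : ZMod P) + p.2)) -
        β * ((∑ a ∈ A, g t (p.1 * (a : ZMod P) + p.2)) ^ 2 -
          (∑ a ∈ A, g t (p.1 * (a : ZMod P) + p.2))) ≤
      (if ∃ a ∈ A, InCell P L t (p.1 * (a : ZMod P) + p.2) then (1:ℝ) else 0) := by
    intro t p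
    have h1 : ∑ a ∈ A, g t (p.1 * (a : ZMod P) + p.2) =
        ((A.filter (fun a : ℤ => InCell P L t (p.1 * (a : ZMod P) + p.2))).card : ℝ) := by
      rw [hg]
      simp only
      rw [Finset.sum_boole]
    rw [h1]
    split_ifs with hex
    · obtain ⟨a, ha, hc⟩ := hex
      have h2 : 1 ≤ (A.filter (fun a : ℤ => InCell P L t (p.1 * (a : ZMod P) + p.2))).card :=
        Finset.card_pos.mpr ⟨a, Finset.mem_filter.mpr ⟨ha, hc⟩⟩
      have h3 := hαβ _ h2
      refine le_trans (le_of_eq ?_) h3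
      ring
    · have h2 : A.filter (fun a : ℤ => InCell P L t (p.1 * (a : ZMod P) + p.2)) = ∅ := by
        rw [Finset.filter_eq_empty_iff]
        intro a ha hc
        exact hex ⟨a, ha, hc⟩
      rw [h2, Finset.card_empty]
      norm_num
  -- sum
  have hsum : ∑ p : ZMod P × ZMod P,
      (T.card : ℝ) * (α * A.card * L * P - β * (A.card * (A.card - 1)) * L ^ 2) ≤
      ∑ p : ZMod P × ZMod P,
        ((T.filter (fun t => ∃ a ∈ A, InCell P L t (p.1 * (a : ZMod P) + p.2))).card : ℝ) *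
          P ^ 2 := by
    have h1 : ∑ p : ZMod P × ZMod P,
        ((T.filter (fun t => ∃ a ∈ A, InCell P L t (p.1 * (a : ZMod P) + p.2))).card : ℝ) =
        ∑ t ∈ T, ∑ p : ZMod P × ZMod P,
          (if ∃ a ∈ A, InCell P L t (p.1 * (a : ZMod P) + p.2) then (1:ℝ) else 0) := by
      rw [Finset.sum_comm]
      refine Finset.sum_congr rfl fun p _ => ?_
      rw [Finset.sum_boole]
    have h2 : ∑ t ∈ T, (α * A.card * L * P - β * (A.card * (A.card - 1)) * L ^ 2) ≤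
        ∑ t ∈ T, ∑ p : ZMod P × ZMod P,
          (if ∃ a ∈ A, InCell P L t (p.1 * (a : ZMod P) + p.2) then (1:ℝ) else 0) := by
      refine Finset.sum_le_sum fun t ht => ?_
      have h3 : ∑ p : ZMod P × ZMod P,
          (α * (∑ a ∈ A, g t (p.1 * (a : ZMod P) + p.2)) -
          β * ((∑ a ∈ A, g t (p.1 * (a : ZMod P) + p.2)) ^ 2 -
            (∑ a ∈ A, g t (p.1 * (a : ZMod P) + p.2)))) =
          α * A.card * L * P - β * (A.card * (A.card - 1)) * L ^ 2 := by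
        rw [Finset.sum_sub_distrib, ← Finset.mul_sum, ← Finset.mul_sum, Finset.sum_sub_distrib,
          hS1 t ht, hS2 t ht]
        ring
      rw [← h3]
      exact Finset.sum_le_sum fun p _ => hpt t p
    rw [Finset.sum_const, nsmul_eq_mul] at h2
    rw [Finset.sum_const, nsmul_eq_mul, ← Finset.sum_mul, h1, Finset.card_univ, Fintype.card_prod,
      ZMod.card]
    push_cast
    nlinarith [mul_le_mul_of_nonneg_right h2 (by positivity : (0:ℝ) ≤ (P:ℝ) ^ 2)]
  obtain ⟨p, -, hp⟩ := Finset.exists_le_of_sum_le ⟨((0 : ZMod P), (0 : ZMod P)),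
    Finset.mem_univ _⟩ hsum
  exact ⟨p.1, p.2, hp⟩

/-- finite sets of reals have integer models. -/
theorem model (A : Finset ℝ) : ∃ f : ℝ → ℤ, (∀ a ∈ A, ∀ b ∈ A, f a = f b → a = b) ∧
    ∀ a ∈ A, ∀ b ∈ A, ∀ c ∈ A, ∀ d ∈ A, a + b = c + d → f a + f b = f c + f d := by
  classical
  let M : Submodule ℤ ℝ := Submodule.span ℤ (A : Set ℝ)
  have hfin : Module.Finite ℤ M := Module.Finite.span_finset ℤ A
  have hfree : Module.Free ℤ M := inferInstance
  let b := Module.finBasis ℤ M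
  let P : M → Polynomial ℤ := fun x => ∑ i, Polynomial.C (b.repr x i) * Polynomial.X ^ (i : ℕ)
  have hP : ∀ x, P x = 0 → x = 0 := by
    intro x hx
    apply b.repr.injective
    rw [map_zero]
    ext i
    have := congrArg (fun p => p.coeff (i : ℕ)) hx
    simp only [P, Polynomial.finsetSum_coeff, Polynomial.coeff_C_mul_X_pow,
      Polynomial.coeff_zero] at this
    rw [Finset.sum_eq_single i] at this
    · simpa using this
    · intro j _ hj
      rw [if_neg]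
      intro h; exact hj (Fin.ext h.symm)
    · simp
  have hPadd : ∀ x y, P (x + y) = P x + P y := by
    intro x y
    simp only [P, map_add, Finsupp.add_apply, add_mul, Finset.sum_add_distrib]
  have hPsub : ∀ x y, P (x - y) = P x - P y := by
    intro x y
    have := hPadd (x - y) y
    rw [sub_add_cancel] at this
    rw [this]; ring
  have hmem : ∀ a ∈ A, a ∈ M := fun a ha => Submodule.subset_span ha
  let g : ℝ → M := fun x => if h : x ∈ M then ⟨x, h⟩ else 0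
  have hg : ∀ a ∈ A, ((g a : M) : ℝ) = a := by
    intro a ha
    simp only [g, dif_pos (hmem a ha)]
  have hbad : (⋃ p ∈ ((A ×ˢ A : Finset (ℝ × ℝ)) : Set (ℝ × ℝ)),
      {B : ℤ | p.1 ≠ p.2 ∧ (P (g p.1 - g p.2)).IsRoot B}).Finite := by
    apply Set.Finite.biUnion (Finset.finite_toSet _)
    rintro ⟨x, y⟩ hxy
    rw [Finset.mem_coe, Finset.mem_product] at hxy
    by_cases h : x = y
    · apply Set.Finite.subset Set.finite_empty
      rintro B ⟨h1, _⟩
      exact (h1 h).elim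
    · have hne : P (g x - g y) ≠ 0 := by
        intro h0
        have h1 := hP _ h0
        have h2 := congrArg (fun z : M => (z : ℝ)) h1
        simp only [Submodule.coe_sub, Submodule.coe_zero] at h2
        rw [hg x hxy.1, hg y hxy.2] at h2
        exact h (sub_eq_zero.1 h2)
      exact (Polynomial.finite_setOfPred_isRoot hne).subset fun B hB => hB.2
  obtain ⟨B, hB⟩ := hbad.exists_notMem
  refine ⟨fun x => (P (g x)).eval B, ?_, ?_⟩
  · intro x hx y hy hxy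
    by_contra hne
    apply hB
    rw [Set.mem_iUnion₂]
    refine ⟨(x, y), ?_, hne, ?_⟩
    · rw [Finset.mem_coe, Finset.mem_product]; exact ⟨hx, hy⟩
    · show (P (g x - g y)).IsRoot B
      rw [Polynomial.IsRoot.def, hPsub, Polynomial.eval_sub]
      exact sub_eq_zero.2 hxy
  · intro x hx y hy z hz w hw h
    have h1 : g x + g y = g z + g w := by
      apply Subtype.ext
      rw [Submodule.coe_add, Submodule.coe_add, hg x hx, hg y hy, hg z hz, hg w hw, h]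
    show (P (g x)).eval B + (P (g y)).eval B = (P (g z)).eval B + (P (g w)).eval B
    rw [← Polynomial.eval_add, ← Polynomial.eval_add, ← hPadd, ← hPadd, h1]

/-- the general bound for integer sets -/
theorem main_int (p : ℕ) (hp : p.Prime) (A : Finset ℤ) (α β r₀ : ℝ) (hβ : 0 ≤ β)
    (hαβ : ∀ x : ℕ, 1 ≤ x → α * x - β * (x * (x - 1)) ≤ 1)
    (hr : ∀ r : ℝ, 1 / (2 * (p : ℝ) ^ 2) ≤ r → r ≤ 1 / (2 * ((p : ℝ) ^ 2 - 1)) →
      r₀ ≤ α * A.card * r - β * (A.card * (A.card - 1)) * r ^ 2) :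
    ∃ S ⊆ A, (p : ℝ) * r₀ ≤ S.card ∧ ∀ a ∈ S, ∀ b ∈ S, ∀ c ∈ S, ∀ d ∈ S, a + b = c + d →
        (a = c ∧ b = d) ∨ (a = d ∧ b = c) := by
  classical
  obtain ⟨T, hTc, hTM, hTS⟩ := bose p hp
  have hp2 : 2 ≤ p := hp.two_le
  have hpp : 4 ≤ p ^ 2 := by nlinarith
  set M : ℕ := p ^ 2 - 1 with hMdef
  have hM : 0 < M := by omega
  obtain ⟨P, hPp, hPB, hP1⟩ := Nat.exists_prime_gt_modEq_one (k := 2 * M)
    (∑ a ∈ A, ∑ b ∈ A, (a - b).natAbs + 2 * M) (by omega)
  have hP0 : 1 ≤ P := hPp.one_lt.le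
  have hdvd : 2 * M ∣ P - 1 := (Nat.modEq_iff_dvd' hP0).mp hP1.symm
  obtain ⟨L, hL⟩ := hdvd
  have hP : P = 2 * M * L + 1 := by omega
  have hL0 : 0 < L := by
    rcases Nat.eq_zero_or_pos L with h | h
    · rw [h] at hP; omega
    · exact h
  haveI : Fact P.Prime := ⟨hPp⟩
  have hA : ∀ a ∈ A, ∀ b ∈ A, a ≠ b → ¬ ((P : ℤ) ∣ (a - b)) := by
    intro a ha b hb hab hd
    have h1 : P ∣ (a - b).natAbs := Int.natCast_dvd.mp hd
    have h2 : 0 < (a - b).natAbs := Int.natAbs_pos.mpr (sub_ne_zero.mpr hab)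
    have h3 := Nat.le_of_dvd h2 h1
    have h4 : (a - b).natAbs ≤ ∑ b ∈ A, (a - b).natAbs :=
      Finset.single_le_sum (f := fun b => (a - b).natAbs) (fun _ _ => Nat.zero_le _) hb
    have h5 : ∑ b ∈ A, (a - b).natAbs ≤ ∑ a ∈ A, ∑ b ∈ A, (a - b).natAbs :=
      Finset.single_le_sum (f := fun a => ∑ b ∈ A, (a - b).natAbs) (fun _ _ => Nat.zero_le _) ha
    omega
  obtain ⟨u, v, huv⟩ := avg M L P hM hL0 hP A hA T hTM α β hαβ
  set F := T.filter (fun t => ∃ a ∈ A, InCell P L t (u * (a : ZMod P) + v)) with hF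
  have hPR : (0 : ℝ) < P := by exact_mod_cast hPp.pos
  have hpR : (2 : ℝ) ≤ p := by exact_mod_cast hp2
  have hLR : (1 : ℝ) ≤ L := by exact_mod_cast hL0
  have hMR : (M : ℝ) = (p : ℝ) ^ 2 - 1 := by
    rw [hMdef, Nat.cast_sub (by omega)]; push_cast; ring
  have hPReq : (P : ℝ) = 2 * ((p : ℝ) ^ 2 - 1) * L + 1 := by
    rw [hP]; push_cast; rw [hMR]
  have hr1 := hr ((L : ℝ) / P)
    (by
      rw [div_le_div_iff₀ (by positivity) hPR, hPReq]
      nlinarith)
    (by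
      rw [div_le_div_iff₀ hPR (by nlinarith), hPReq]
      nlinarith)
  have hcard : (p : ℝ) * r₀ ≤ F.card := by
    rw [hTc] at huv
    have h1 : (p : ℝ) * r₀ * P ^ 2 ≤ F.card * P ^ 2 := by
      refine le_trans ?_ huv
      have h2 : (p : ℝ) * (α * A.card * L * P - β * (A.card * (A.card - 1)) * L ^ 2) =
          p * (α * A.card * (L / P) - β * (A.card * (A.card - 1)) * (L / P) ^ 2) * P ^ 2 := by
        field_simp
      rw [h2]
      apply mul_le_mul_of_nonneg_right _ (by positivity)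
      exact mul_le_mul_of_nonneg_left hr1 (by positivity)
    exact le_of_mul_le_mul_right h1 (by positivity)
  have hch : ∀ t ∈ F, ∃ a ∈ A, InCell P L t (u * (a : ZMod P) + v) := by
    intro t ht
    exact (Finset.mem_filter.mp ht).2
  choose! g hgA hgC using hch
  have hinj : Set.InjOn g F := by
    intro t ht t' ht' hgg
    have h1 := hgC t ht
    have h2 := hgC t' ht'
    rw [hgg] at h1
    unfold InCell at h1 h2
    rcases lt_trichotomy t t' with h | h | h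
    · have : 2 * t * L + 2 * L ≤ 2 * t' * L := by nlinarith
      omega
    · exact h
    · have : 2 * t' * L + 2 * L ≤ 2 * t * L := by nlinarith
      omega
  refine ⟨F.image g, ?_, ?_, ?_⟩
  · intro a ha
    obtain ⟨t, ht, rfl⟩ := Finset.mem_image.mp ha
    exact hgA t ht
  · rw [Finset.card_image_of_injOn hinj]; exact hcard
  · intro a ha b hb c hc d hd habcd
    obtain ⟨t1, ht1, rfl⟩ := Finset.mem_image.mp ha
    obtain ⟨t2, ht2, rfl⟩ := Finset.mem_image.mp hb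
    obtain ⟨t3, ht3, rfl⟩ := Finset.mem_image.mp hc
    obtain ⟨t4, ht4, rfl⟩ := Finset.mem_image.mp hd
    have hT' : ∀ t ∈ F, t ∈ T := fun t ht => (Finset.mem_filter.mp ht).1
    have hz : ((g t1 : ZMod P)) + (g t2 : ZMod P) = (g t3 : ZMod P) + (g t4 : ZMod P) := by
      exact_mod_cast congrArg (Int.cast : ℤ → ZMod P) habcd
    have hs := cell_sum M L P hM hL0 hP t1 t2 t3 t4 (hTM t1 (hT' t1 ht1)) (hTM t2 (hT' t2 ht2))
      (hTM t3 (hT' t3 ht3)) (hTM t4 (hT' t4 ht4)) _ _ _ _ (hgC t1 ht1) (hgC t2 ht2) (hgC t3 ht3)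
      (hgC t4 ht4) (by linear_combination u * hz)
    rcases hTS t1 (hT' t1 ht1) t2 (hT' t2 ht2) t3 (hT' t3 ht3) t4 (hT' t4 ht4) hs with ⟨h1, h2⟩ | ⟨h1, h2⟩
    · left; rw [h1, h2]; exact ⟨rfl, rfl⟩
    · right; rw [h1, h2]; exact ⟨rfl, rfl⟩

/-- the general bound for real sets -/
theorem main_real (p : ℕ) (hp : p.Prime) (A : Finset ℝ) (α β r₀ : ℝ) (hβ : 0 ≤ β)
    (hαβ : ∀ x : ℕ, 1 ≤ x → α * x - β * (x * (x - 1)) ≤ 1)
    (hr : ∀ r : ℝ, 1 / (2 * (p : ℝ) ^ 2) ≤ r → r ≤ 1 / (2 * ((p : ℝ) ^ 2 - 1)) →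
      r₀ ≤ α * A.card * r - β * (A.card * (A.card - 1)) * r ^ 2) :
    ∃ S ⊆ A, (p : ℝ) * r₀ ≤ S.card ∧ ∀ a ∈ S, ∀ b ∈ S, ∀ c ∈ S, ∀ d ∈ S, a ≠ b → c ≠ d →
      |a - b| = |c - d| → ((a = c ∧ b = d) ∨ (a = d ∧ b = c)) := by
  classical
  obtain ⟨f, hf, hadd⟩ := model A
  have hinj : Set.InjOn f A := fun a ha b hb h => hf a ha b hb h
  have hcard : (A.image f).card = A.card := Finset.card_image_of_injOn hinj
  obtain ⟨S, hS, hSc, hSs⟩ := main_int p hp (A.image f) α β r₀ hβ hαβ (by rw [hcard]; exact hr)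
  refine ⟨A.filter (fun a => f a ∈ S), Finset.filter_subset _ _, ?_, ?_⟩
  · have himg : (A.filter (fun a => f a ∈ S)).image f = S := by
      ext z
      simp only [Finset.mem_image, Finset.mem_filter]
      constructor
      · rintro ⟨a, ⟨_, h2⟩, rfl⟩; exact h2
      · intro hz
        obtain ⟨a, ha, rfl⟩ := Finset.mem_image.1 (hS hz)
        exact ⟨a, ⟨ha, hz⟩, rfl⟩
    have : S.card = (A.filter (fun a => f a ∈ S)).card := by
      rw [← himg, Finset.card_image_of_injOn]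
      · rw [himg]
      · intro a ha b hb h
        exact hf a (Finset.mem_filter.1 ha).1 b (Finset.mem_filter.1 hb).1 h
    rw [← this]; exact hSc
  · intro a ha b hb c hc d hd hab hcd h
    obtain ⟨ha, hfa⟩ := Finset.mem_filter.1 ha
    obtain ⟨hb, hfb⟩ := Finset.mem_filter.1 hb
    obtain ⟨hc, hfc⟩ := Finset.mem_filter.1 hc
    obtain ⟨hd, hfd⟩ := Finset.mem_filter.1 hd
    rcases abs_eq_abs.1 h with h | h
    · have h1 : a + d = c + b := by linarith
      rcases hSs _ hfa _ hfd _ hfc _ hfb (hadd a ha d hd c hc b hb h1) with ⟨h2, h3⟩ | ⟨h2, h3⟩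
      · exact Or.inl ⟨hf a ha c hc h2, (hf d hd b hb h3).symm⟩
      · exact absurd (hf a ha b hb h2) hab
    · have h1 : a + c = d + b := by linarith
      rcases hSs _ hfa _ hfc _ hfd _ hfb (hadd a ha c hc d hd b hb h1) with ⟨h2, h3⟩ | ⟨h2, h3⟩
      · exact Or.inr ⟨hf a ha d hd h2, (hf c hc b hb h3).symm⟩
      · exact absurd (hf a ha b hb h2) hab


/-- `f(k,1) ≤ 9 (k-1)^2 + 1`. -/
theorem nine (k : ℕ) (hk : 1 ≤ k) (S : Finset ℝ) (hS : 9 * (k - 1) ^ 2 + 1 ≤ S.card) :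
    ∃ T ⊆ S, T.card = k ∧ ∀ a ∈ T, ∀ b ∈ T, ∀ c ∈ T, ∀ d ∈ T, a ≠ b → c ≠ d →
      |a - b| = |c - d| → ((a = c ∧ b = d) ∨ (a = d ∧ b = c)) := by
  rcases Nat.lt_or_ge 1 k with hk1 | hk1
  swap
  · have hk1 : k = 1 := le_antisymm hk1 hk
    subst hk1
    have hne : S.Nonempty := by
      rw [← Finset.card_pos]
      omega
    obtain ⟨a, ha⟩ := hne
    refine ⟨{a}, Finset.singleton_subset_iff.2 ha, Finset.card_singleton a, ?_⟩
    intro a1 ha1 b1 hb1 c1 _ d1 _ hab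
    rw [Finset.mem_singleton] at ha1 hb1
    exact absurd (ha1.trans hb1.symm) hab
  obtain ⟨j, rfl⟩ : ∃ j, k = j + 1 := ⟨k - 1, by omega⟩
  have hj : 1 ≤ j := by omega
  rw [Nat.add_sub_cancel] at hS
  obtain ⟨A, hAS, hA⟩ := Finset.exists_subset_card_eq hS
  obtain ⟨p, hp, hp1, hp2⟩ := Nat.exists_prime_lt_and_le_two_mul (3 * j / 2) (by omega)
  have hp3 : p ≤ 3 * j := by omega
  have hp4 : 3 * j < 2 * p := by omega
  have hpR : (2 : ℝ) ≤ p := by exact_mod_cast hp.two_le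
  have hjR : (1 : ℝ) ≤ j := by exact_mod_cast hj
  have hp3R : (p : ℝ) ≤ 3 * j := by exact_mod_cast hp3
  have hp4R : (3 : ℝ) * j < 2 * p := by exact_mod_cast hp4
  obtain ⟨P, hP⟩ : ∃ P : ℝ, P = (p : ℝ) ^ 2 := ⟨_, rfl⟩
  have hP4 : 4 ≤ P := by rw [hP]; nlinarith
  obtain ⟨u, hu⟩ : ∃ u : ℝ, u = 9 * (j : ℝ) ^ 2 := ⟨_, rfl⟩
  have hu0 : 0 < u := by rw [hu]; positivity
  have hAu : (A.card : ℝ) = u + 1 := by rw [hA, hu]; push_cast; ring
  have huP : u < 4 * P := by rw [hu, hP]; nlinarith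
  obtain ⟨lam, hlam⟩ : ∃ lam : ℝ, lam = 2 * P / (2 * P + u) := ⟨_, rfl⟩
  have hden : 0 < 2 * P + u := by linarith
  have hlam0 : 0 < lam := by rw [hlam]; positivity
  have hlam1 : lam * (2 * P + u) = 2 * P := by rw [hlam]; field_simp
  obtain ⟨B, hBA, hBc, hB⟩ := main_real p hp A (2 * lam - lam ^ 2) (lam ^ 2) ((u + 1) / (2 * P + u))
    (sq_nonneg _) (by
      intro x _
      nlinarith [sq_nonneg (1 - lam * (x : ℝ))])
    (by
      intro r hr1 hr2
      rw [← hP] at hr1 hr2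
      rw [hAu]
      have hr1' : 1 ≤ 2 * P * r := by
        rw [div_le_iff₀ (by linarith)] at hr1
        linarith
      have hr2' : 2 * (P - 1) * r ≤ 1 := by
        rw [le_div_iff₀ (by linarith)] at hr2
        linarith
      have hr0 : 0 < r := by
        by_contra hcon
        push Not at hcon
        nlinarith
      -- the difference
      have hkey : 0 ≤ (2 * P * r - 1) * (1 + u / (2 * P) - u * r) := by
        refine mul_nonneg (by linarith) ?_
        have h1 : u * r ≤ 1 + u / (2 * P) := by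
          have h2 : r ≤ 1 / (2 * (P - 1)) := hr2
          have h3 : u * r ≤ u * (1 / (2 * (P - 1))) := mul_le_mul_of_nonneg_left h2 hu0.le
          refine h3.trans ?_
          have h4 : 1 + u / (2 * P) - u * (1 / (2 * (P - 1))) = (2 * P * (P - 1) - u) / (2 * P * (P - 1)) := by
            have : P - 1 ≠ 0 := by linarith
            have : P ≠ 0 := by linarith
            field_simp
            ring
          have h5 : 0 ≤ (2 * P * (P - 1) - u) / (2 * P * (P - 1)) := by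
            apply div_nonneg
            · nlinarith
            · nlinarith
          linarith
        linarith
      have hfin : (2 * lam - lam ^ 2) * (u + 1) * r - lam ^ 2 * ((u + 1) * (u + 1 - 1)) * r ^ 2
          - (u + 1) / (2 * P + u) = (u + 1) * lam ^ 2 / (2 * P) * ((2 * P * r - 1) * (1 + u / (2 * P) - u * r)) := by
        rw [hlam]
        have : P ≠ 0 := by linarith
        field_simp
        ring
      have h6 : 0 ≤ (u + 1) * lam ^ 2 / (2 * P) * ((2 * P * r - 1) * (1 + u / (2 * P) - u * r)) := by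
        apply mul_nonneg _ hkey
        positivity
      linarith)
  have hBj : (j : ℝ) < (p : ℝ) * ((u + 1) / (2 * P + u)) := by
    rw [mul_div_assoc', lt_div_iff₀ hden, hu, hP]
    nlinarith [mul_nonneg (by linarith : (0 : ℝ) ≤ j)
      (mul_nonneg (sub_nonneg.2 hp3R) (sub_nonneg.2 hp4R.le))]
  have hBj2 : j < B.card := by exact_mod_cast hBj.trans_le hBc
  obtain ⟨T, hTB, hT⟩ := Finset.exists_subset_card_eq (show j + 1 ≤ B.card from hBj2)
  refine ⟨T, hTB.trans (hBA.trans hAS), hT, ?_⟩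
  intro a ha b hb c hc d hd
  exact hB a (hTB ha) b (hTB hb) c (hTB hc) d (hTB hd)

theorem inf_aux1 (P N r : ℝ) (hP : 4 ≤ P) (hN1 : N ≤ 4 * P / 3) (hN2 : 4 * P / 3 - 1 ≤ N)
    (h1 : 1 / (2 * P) ≤ r) (h2 : r ≤ 1 / (2 * (P - 1))) :
    4 / 9 - 1 / (2 * P) ≤ 1 * N * r - 1 / 2 * (N * (N - 1)) * r ^ 2 := by
  have hP0 : 0 < P := by linarith
  have hN0 : 1 ≤ N := by linarith
  set q : ℝ := 1 / (2 * P) with hq
  have hq0 : 0 < q := by positivity
  have hqP : q * P = 1 / 2 := by rw [hq]; field_simp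
  have hrP : r * (P - 1) ≤ 1 / 2 := by
    have h3 : 0 < P - 1 := by linarith
    calc r * (P - 1) ≤ 1 / (2 * (P - 1)) * (P - 1) := mul_le_mul_of_nonneg_right h2 h3.le
      _ = 1 / 2 := by field_simp
  have hr0 : 0 < r := lt_of_lt_of_le hq0 h1
  have hNr : (N - 1) * r ≤ 1 := by nlinarith
  have hNq : (N - 1) * q ≤ 1 := by nlinarith
  -- value at q
  have hval : 4 / 9 - q ≤ N * q - 1 / 2 * (N * (N - 1)) * q ^ 2 := by
    have a1 : (4 * P / 3 - 1) * q ≤ N * q := mul_le_mul_of_nonneg_right hN2 hq0.le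
    have a2 : N * (N - 1) ≤ (4 * P / 3) * (4 * P / 3) := by
      apply mul_le_mul hN1 (by linarith) (by linarith) (by linarith)
    have a3 : N * (N - 1) * q ^ 2 ≤ (4 * P / 3) * (4 * P / 3) * q ^ 2 :=
      mul_le_mul_of_nonneg_right a2 (by positivity)
    have a4 : (4 * P / 3) * (4 * P / 3) * q ^ 2 = 16 / 9 * (q * P) ^ 2 := by ring
    have a5 : (4 * P / 3 - 1) * q = 4 / 3 * (q * P) - q := by ring
    rw [a4, hqP] at a3
    rw [a5, hqP] at a1
    nlinarith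
  have hdiff : 0 ≤ N * (r - q) * (1 - (N - 1) * r / 2 - (N - 1) * q / 2) := by
    apply mul_nonneg (mul_nonneg (by linarith) (by linarith))
    linarith
  nlinarith

/-- `liminf f(k,1)/k^2 ≤ 27/4`. -/
theorem inf (ε : ℝ) (hε : 0 < ε) (K : ℕ) : ∃ k : ℕ, K ≤ k ∧ 0 < k ∧ ∀ S : Finset ℝ,
    (27 / 4 + ε) * (k : ℝ) ^ 2 ≤ S.card →
    ∃ T ⊆ S, T.card = k ∧ ∀ a ∈ T, ∀ b ∈ T, ∀ c ∈ T, ∀ d ∈ T, a ≠ b → c ≠ d →
      |a - b| = |c - d| → ((a = c ∧ b = d) ∨ (a = d ∧ b = c)) := by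
  obtain ⟨p, hpP, hp⟩ := Nat.exists_infinite_primes (⌈6 * (3 / ε + 1)⌉₊ + 3 * K + 10)
  have hpR : 6 * (3 / ε + 1) + 3 * K + 10 ≤ (p : ℝ) := by
    have h1 : ((⌈6 * (3 / ε + 1)⌉₊ + 3 * K + 10 : ℕ) : ℝ) ≤ (p : ℝ) := by exact_mod_cast hpP
    have h2 := Nat.le_ceil (6 * (3 / ε + 1))
    push_cast at h1
    linarith
  have hK0 : (0 : ℝ) ≤ K := Nat.cast_nonneg K
  have he0 : 0 < 3 / ε := by positivity
  have hp10 : (10 : ℝ) ≤ p := by nlinarith
  have hp0 : (0 : ℝ) < p := by linarith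
  set y : ℝ := 4 * (p : ℝ) / 9 - 1 / (2 * p) with hy
  have hinv : 1 / (2 * (p : ℝ)) ≤ 1 / 20 := by
    apply one_div_le_one_div_of_le (by norm_num) (by linarith)
  have hinv0 : 0 < 1 / (2 * (p : ℝ)) := by positivity
  have hyK : (K : ℝ) + 1 ≤ y := by
    rw [hy]
    nlinarith
  have hy0 : 0 < y := by linarith
  have hky : y ≤ (⌈y⌉₊ : ℝ) := Nat.le_ceil y
  have hy2 : 16 * (p : ℝ) ^ 2 / 81 - 4 / 9 ≤ y ^ 2 := by
    have h1 : y ^ 2 = 16 * (p : ℝ) ^ 2 / 81 - 4 / 9 + (1 / (2 * p)) ^ 2 := by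
      rw [hy]; field_simp; ring
    rw [h1]
    nlinarith [sq_nonneg (1 / (2 * (p : ℝ)))]
  have hεy : 3 ≤ ε * y ^ 2 := by
    have h1 : (p : ℝ) ≤ (p : ℝ) ^ 2 := by nlinarith
    have h2 : 3 / ε ≤ y ^ 2 := by nlinarith
    calc (3 : ℝ) = ε * (3 / ε) := by field_simp
      _ ≤ ε * y ^ 2 := mul_le_mul_of_nonneg_left h2 hε.le
  have hmain : 4 * (p : ℝ) ^ 2 / 3 ≤ (27 / 4 + ε) * (⌈y⌉₊ : ℝ) ^ 2 := by
    have h1 : y ^ 2 ≤ (⌈y⌉₊ : ℝ) ^ 2 := by nlinarith
    have h2 : (27 / 4 + ε) * y ^ 2 ≤ (27 / 4 + ε) * (⌈y⌉₊ : ℝ) ^ 2 :=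
      mul_le_mul_of_nonneg_left h1 (by linarith)
    nlinarith
  refine ⟨⌈y⌉₊, ?_, ?_, ?_⟩
  · have : (K : ℝ) ≤ (⌈y⌉₊ : ℝ) := by linarith
    exact_mod_cast this
  · have : (0 : ℝ) < (⌈y⌉₊ : ℝ) := by linarith
    exact_mod_cast this
  · intro S hS
    have hN1 : ((4 * p ^ 2 / 3 : ℕ) : ℝ) ≤ 4 * (p : ℝ) ^ 2 / 3 := by
      have h1 := @Nat.cast_div_le ℝ _ _ _ (4 * p ^ 2) 3
      push_cast at h1
      exact h1
    have hN2 : 4 * (p : ℝ) ^ 2 / 3 - 1 ≤ ((4 * p ^ 2 / 3 : ℕ) : ℝ) := by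
      have h1 : 4 * p ^ 2 < 3 * (4 * p ^ 2 / 3) + 3 := by omega
      have h2 : (4 : ℝ) * p ^ 2 < 3 * ((4 * p ^ 2 / 3 : ℕ) : ℝ) + 3 := by exact_mod_cast h1
      linarith
    have hNS : 4 * p ^ 2 / 3 ≤ S.card := by
      have : ((4 * p ^ 2 / 3 : ℕ) : ℝ) ≤ (S.card : ℝ) := by linarith
      exact_mod_cast this
    obtain ⟨A, hAS, hA⟩ := Finset.exists_subset_card_eq hNS
    obtain ⟨S0, hS0A, hS0c, hS0⟩ := main_real p hp A 1 (1 / 2) (4 / 9 - 1 / (2 * (p : ℝ) ^ 2)) (by norm_num)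
      (by
        intro x hx
        rcases Nat.lt_or_ge x 2 with h | h
        · have : x = 1 := by omega
          subst this
          norm_num
        · have h2 : (2 : ℝ) ≤ x := by exact_mod_cast h
          nlinarith)
      (by
        intro r h1 h2
        rw [hA]
        exact inf_aux1 ((p : ℝ) ^ 2) _ r (by nlinarith) hN1 hN2 h1 h2)
    have hyS : y ≤ (S0.card : ℝ) := by
      refine le_trans (le_of_eq ?_) hS0c
      rw [hy]
      field_simp
    have hk : ⌈y⌉₊ ≤ S0.card := Nat.ceil_le.2 hyS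
    obtain ⟨T, hTS, hT⟩ := Finset.exists_subset_card_eq hk
    exact ⟨T, hTS.trans (hS0A.trans hAS), hT, fun a ha b hb c hc d hd hab hcd h =>
      hS0 a (hTS ha) b (hTS hb) c (hTS hc) d (hTS hd) hab hcd h⟩

/-- All distances between two points of `T` are distinct. -/
def DistinctDistances (T : Finset ℝ) : Prop :=
  ∀ a ∈ T, ∀ b ∈ T, ∀ c ∈ T, ∀ d ∈ T, a ≠ b → c ≠ d →
    |a - b| = |c - d| → ((a = c ∧ b = d) ∨ (a = d ∧ b = c))

/-- `f(k,1)`: the least `N` such that every set of `N` distinct real numbers has a `k`-element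
subset with pairwise distinct distances. -/
noncomputable def f (k : ℕ) : ℕ :=
  sInf {N : ℕ | ∀ S : Finset ℝ, S.card = N → ∃ T ⊆ S, T.card = k ∧ DistinctDistances T}

/-- **Main result.** -/
theorem result :
    (∀ A : Finset ℝ, ∃ T ⊆ A, DistinctDistances T ∧ A.card ≤ 9 * T.card ^ 2) ∧
    (∀ k : ℕ, 1 ≤ k →
      (∀ S : Finset ℝ, 9 * (k - 1) ^ 2 + 1 ≤ S.card →
        ∃ T ⊆ S, T.card = k ∧ DistinctDistances T) ∧ f k ≤ 9 * (k - 1) ^ 2 + 1) ∧
    (∀ ε : ℝ, 0 < ε → ∀ K : ℕ, ∃ k : ℕ, K ≤ k ∧ (f k : ℝ) ≤ (27 / 4 + ε) * (k : ℝ) ^ 2) := by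
  refine ⟨?_, ?_, ?_⟩
  · intro A
    rcases Nat.eq_zero_or_pos A.card with h0 | h0
    · exact ⟨∅, Finset.empty_subset _, by intro a ha; simp at ha, by simp [h0]⟩
    · obtain ⟨j, hj1, hj2⟩ : ∃ j : ℕ, 9 * j ^ 2 + 1 ≤ A.card ∧ A.card ≤ 9 * (j + 1) ^ 2 := by
        refine ⟨Nat.sqrt ((A.card - 1) / 9), ?_, ?_⟩
        · have h1 := Nat.sqrt_le' ((A.card - 1) / 9)
          have h2 := Nat.div_mul_le_self (A.card - 1) 9
          omega
        · have h1 := Nat.lt_succ_sqrt' ((A.card - 1) / 9)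
          have h2 : (A.card - 1) / 9 + 1 ≤ (Nat.sqrt ((A.card - 1) / 9) + 1) ^ 2 := h1
          omega
      obtain ⟨T, hT, hTc, hTd⟩ := nine (j + 1) (by omega) A (by simpa using hj1)
      exact ⟨T, hT, hTd, by rw [hTc]; exact hj2⟩
  · intro k hk
    have h1 : ∀ S : Finset ℝ, 9 * (k - 1) ^ 2 + 1 ≤ S.card →
        ∃ T ⊆ S, T.card = k ∧ DistinctDistances T := fun S hS => nine k hk S hS
    exact ⟨h1, Nat.sInf_le (fun S hS => h1 S hS.ge)⟩
  · intro ε hε K
    obtain ⟨k, hK, hk, h⟩ := inf (ε / 2) (by positivity) (max K ⌈2 / ε⌉₊)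
    refine ⟨k, le_trans (le_max_left _ _) hK, ?_⟩
    have hk1 : 2 / ε ≤ (k : ℝ) := by
      have : (⌈2 / ε⌉₊ : ℝ) ≤ (k : ℝ) := by exact_mod_cast le_trans (le_max_right _ _) hK
      exact le_trans (Nat.le_ceil _) this
    have hk2 : (1 : ℝ) ≤ k := by exact_mod_cast hk
    have hk3 : 1 ≤ ε / 2 * (k : ℝ) ^ 2 := by
      have h1 : 2 ≤ (k : ℝ) * ε := by rwa [div_le_iff₀ hε] at hk1
      have h2 : (k : ℝ) ≤ (k : ℝ) ^ 2 := by nlinarith
      nlinarith
    have h2 : f k ≤ ⌈(27 / 4 + ε / 2) * (k : ℝ) ^ 2⌉₊ := by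
      apply Nat.sInf_le
      intro S hS
      exact h S (by rw [hS]; exact Nat.le_ceil _)
    have h3 : (⌈(27 / 4 + ε / 2) * (k : ℝ) ^ 2⌉₊ : ℝ) < (27 / 4 + ε / 2) * (k : ℝ) ^ 2 + 1 :=
      Nat.ceil_lt_add_one (by positivity)
    have h4 : (f k : ℝ) ≤ (⌈(27 / 4 + ε / 2) * (k : ℝ) ^ 2⌉₊ : ℝ) := by exact_mod_cast h2
    linarith

end Pool.Agent.Results.MP_be54a8_co.SidonNine
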